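import Pool.Agent.AXM.Fin

/-!
# Albertson's conjecture for graphs with a dense subgraph

There are `μ > 0` and `t₀` such that for every `t ≥ t₀`, every finite graph `G` with `χ(G) ≥ t` and
a vertex set `A` such that the sum over `v ∈ A` of `sqrt ((2 d_A(v) - |A|) / |A|)` is at least
`(1 - μ) t` (`d_A(v)` is the number of neighbours of `v` in `A`; the square root of a negative
number is `0`), and every plane drawing of `G`, there is a drawing of `K_t` with at most as many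
crossings.  The statement is the frozen statement of the problem with the two additional
hypotheses.
-/

set_option autoImplicit false

namespace Pool.Agent.Results.MP_b9e35b_co.DenseSubgraph

theorem result :
    ∃ μ : ℝ, 0 < μ ∧ ∃ t₀ : ℕ, ∀ (n : ℕ) (G : SimpleGraph (Fin n)) (t : ℕ), t₀ ≤ t →
      ∀ A : Finset (Fin n),
      (1 - μ) * (t : ℝ) ≤ ∑ v ∈ A, Real.sqrt
        ((2 * (Set.ncard {x : Fin n | x ∈ A ∧ G.Adj v x} : ℝ) - (A.card : ℝ)) / (A.card : ℝ)) →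
      (t : ℕ∞) ≤ G.chromaticNumber →
      ∀ (pos : Fin n → ℝ × ℝ) (γ : ∀ u v : Fin n, Path (pos u) (pos v)),
        Function.Injective pos →
        (∀ u v : Fin n, u < v → G.Adj u v →
          Function.Injective ⇑(γ u v) ∧
            ∀ s : unitInterval, (γ u v) s ∈ Set.range pos → s = 0 ∨ s = 1) →
        Set.Finite {q : (Fin n × Fin n) × (Fin n × Fin n) × (ℝ × ℝ) |
          q.1.1 < q.1.2 ∧ G.Adj q.1.1 q.1.2 ∧ q.2.1.1 < q.2.1.2 ∧ G.Adj q.2.1.1 q.2.1.2 ∧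
          q.1 ≠ q.2.1 ∧ q.2.2 ∈ Set.range ⇑(γ q.1.1 q.1.2) ∧
          q.2.2 ∈ Set.range ⇑(γ q.2.1.1 q.2.1.2) ∧ q.2.2 ∉ Set.range pos} →
        ∃ (pos' : Fin t → ℝ × ℝ) (γ' : ∀ u v : Fin t, Path (pos' u) (pos' v)),
          Function.Injective pos' ∧
          (∀ u v : Fin t, u < v → (⊤ : SimpleGraph (Fin t)).Adj u v →
            Function.Injective ⇑(γ' u v) ∧
              ∀ s : unitInterval, (γ' u v) s ∈ Set.range pos' → s = 0 ∨ s = 1) ∧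
          Set.Finite {q : (Fin t × Fin t) × (Fin t × Fin t) × (ℝ × ℝ) |
            q.1.1 < q.1.2 ∧ (⊤ : SimpleGraph (Fin t)).Adj q.1.1 q.1.2 ∧
            q.2.1.1 < q.2.1.2 ∧ (⊤ : SimpleGraph (Fin t)).Adj q.2.1.1 q.2.1.2 ∧
            q.1 ≠ q.2.1 ∧ q.2.2 ∈ Set.range ⇑(γ' q.1.1 q.1.2) ∧
            q.2.2 ∈ Set.range ⇑(γ' q.2.1.1 q.2.1.2) ∧ q.2.2 ∉ Set.range pos'} ∧
          Set.ncard {q : (Fin t × Fin t) × (Fin t × Fin t) × (ℝ × ℝ) |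
            q.1.1 < q.1.2 ∧ (⊤ : SimpleGraph (Fin t)).Adj q.1.1 q.1.2 ∧
            q.2.1.1 < q.2.1.2 ∧ (⊤ : SimpleGraph (Fin t)).Adj q.2.1.1 q.2.1.2 ∧
            q.1 ≠ q.2.1 ∧ q.2.2 ∈ Set.range ⇑(γ' q.1.1 q.1.2) ∧
            q.2.2 ∈ Set.range ⇑(γ' q.2.1.1 q.2.1.2) ∧ q.2.2 ∉ Set.range pos'}
          ≤ Set.ncard {q : (Fin n × Fin n) × (Fin n × Fin n) × (ℝ × ℝ) |
            q.1.1 < q.1.2 ∧ G.Adj q.1.1 q.1.2 ∧ q.2.1.1 < q.2.1.2 ∧ G.Adj q.2.1.1 q.2.1.2 ∧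
            q.1 ≠ q.2.1 ∧ q.2.2 ∈ Set.range ⇑(γ q.1.1 q.1.2) ∧
            q.2.2 ∈ Set.range ⇑(γ q.2.1.1 q.2.1.2) ∧ q.2.2 ∉ Set.range pos} := by
  obtain ⟨μ, hμ, t₀, h⟩ := Pool.Agent.AXM.mainU
  refine ⟨μ, hμ, t₀, ?_⟩
  intro n G t ht A hA hχ pos γ h1 h2 h3
  obtain ⟨pos', γ', ⟨h4, h5, h6⟩, h7⟩ := h n G t ht A hA hχ pos γ ⟨h1, h2, h3⟩
  exact ⟨pos', γ', h4, h5, h6, h7⟩

end Pool.Agent.Results.MP_b9e35b_co.DenseSubgraph
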